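import Pool.Agent.N916.RE.Li

/-!
# The parity of the number of vectors, even discriminants
-/

set_option autoImplicit false

namespace Pool.Agent.N916.RE

open Finset Pool.Agent.N877.TF
open Pool.Agent.N855.P15 (sg sg_add sg_inj sg_sum sy sg_sy jac_prod PP dv dvd_dv add_self2)

/-- the vector of `m` -/
def ev (m : ℕ) : PP (4 * m) → ZMod 2 := fun p => if (p : ℕ) ∣ m then 1 else 0

theorem dv_ev {m : ℕ} (hsq : Squarefree m) : dv (4 * m) (ev m) = m :=
  dv_of hsq (fun p hp => (Nat.dvd_of_mem_primeFactors hp).trans (Dvd.intro_left _ rfl)) hsq.ne_zero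

theorem dv_zero (m : ℕ) : dv (4 * m) 0 = 1 := by simp [dv]

theorem ev_ne {m : ℕ} (hsq : Squarefree m) (hm1 : m ≠ 1) : ev m ≠ 0 := by
  intro h
  apply hm1
  rw [← dv_ev hsq, h, dv_zero]

theorem Lm_ev {m : ℕ} (hsq : Squarefree m) : Lm m (ev m) = 0 := by
  rw [← Cn_iff hsq 0 (fun _ => 1) (fun _ => rfl), dv_ev hsq]
  intro p hp hp2
  have hpp := Nat.prime_of_mem_primeFactors hp
  have hpd := Nat.dvd_of_mem_primeFactors hp
  rw [if_pos hpd]
  push_cast
  rw [← sq]
  apply jacobiSym.sq_one'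
  have hcop : Nat.Coprime (m / p) p := by
    apply Nat.Coprime.symm
    rw [Nat.Prime.coprime_iff_not_dvd hpp]
    rintro ⟨k, hk⟩
    have h1 : p * p ∣ m := ⟨k, by rw [mul_assoc, ← hk, Nat.mul_div_cancel' hpd]⟩
    exact hpp.one_lt.ne' (Nat.isUnit_iff.1 (hsq p h1))
  have := Nat.isCoprime_iff_coprime.2 hcop
  push_cast at this
  exact Int.isCoprime_iff_gcd_eq_one.1 this

theorem Qe_iff {m : ℕ} (hsq : Squarefree m) :
    Pool.Agent.N969.P15.Qe (4 * m) ↔ ∀ x, Lm m x = 0 → x = 0 ∨ x = ev m := by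
  have hm0 := hsq.ne_zero
  have h4 : 4 * m / 4 = m := by omega
  have hcn : ∀ d, (∀ p ∈ (4 * m).primeFactors, p ≠ 2 →
      (if p ∣ d then jacobiSym ((d / p * (4 * m / 4 / p) : ℕ) : ℤ) p else jacobiSym d p) = 1) ↔
      Cn m (fun _ => 1) d := by
    intro d
    unfold Cn
    rw [h4]
    constructor
    · intro h p hp hp2
      exact h p (by rw [pf4 hm0]; exact Finset.mem_insert_of_mem (Finset.mem_erase.2 ⟨hp2, hp⟩)) hp2
    · intro h p hp hp2
      rw [pf4 hm0] at hp
      rcases Finset.mem_insert.1 hp with h1 | h1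
      · exact absurd h1 hp2
      · exact h p (Finset.mem_of_mem_erase h1) hp2
  unfold Pool.Agent.N969.P15.Qe
  constructor
  · intro h x hx
    have h1 := (Cn_iff hsq 0 (fun _ => 1) (fun _ => rfl) x).2 hx
    rcases h (dv (4 * m) x) (dv_sq x) (dv_supp x) ((hcn _).2 h1) with h2 | h2
    · left
      exact dv_inj (h2.trans (dv_zero m).symm)
    · right
      rw [h4] at h2
      exact dv_inj (h2.trans (dv_ev hsq).symm)
  · intro h d hd hdn hc
    have h1 := dv_of hd hdn hm0
    have h2 := (hcn d).1 hc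
    rw [← h1, Cn_iff hsq 0 (fun _ => 1) (fun _ => rfl)] at h2
    rw [h4]
    rcases h _ h2 with h3 | h3
    · left
      rw [← h1, h3, dv_zero]
    · right
      rw [← h1, h3, dv_ev hsq]

theorem sqdvd {d m : ℕ} (hd : Squarefree d) (h : ∀ p ∈ d.primeFactors, p ∣ m) : d ∣ m := by
  rw [← Nat.prod_primeFactors_of_squarefree hd]
  exact Finset.prod_primes_dvd m (fun p hp => (Nat.prime_of_mem_primeFactors hp).prime) h

theorem five_iff {p : ℕ} (hp : p.Prime) (h5 : p ≠ 5) {x : ℤ} (hx : ¬ (p : ℤ) ∣ x) :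
    jacobiSym (-(5 * x)) p = 1 ↔ jacobiSym x p = jacobiSym (-5) p := by
  have e : -(5 * x) = -5 * x := by ring
  rw [e, jacobiSym.mul_left]
  have g1 : (-5 : ℤ).gcd p = 1 := by
    change Nat.gcd 5 p = 1
    exact (Nat.coprime_primes Nat.prime_five hp).2 (Ne.symm h5)
  have g2 : x.gcd p = 1 := by
    have : IsCoprime x (p : ℤ) := by
      rw [isCoprime_comm]
      exact (Prime.coprime_iff_not_dvd (Nat.prime_iff_prime_int.1 hp)).2 hx
    exact Int.isCoprime_iff_gcd_eq_one.1 this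
  rcases jacobiSym.eq_one_or_neg_one g1 with k1 | k1 <;>
    rcases jacobiSym.eq_one_or_neg_one g2 with k2 | k2 <;> rw [k1, k2] <;> norm_num

theorem Cn_Cc {m r s t : ℕ} (hsq : Squarefree m) (h5 : ¬ 5 ∣ m) (h : r * s = m)
    (ht : t = 1 ∨ t = 2) : Cn m (fun p => jacobiSym (-5) p) (t * r) ↔ Cc t r s := by
  obtain ⟨-, -, hcop, hr0, hs0⟩ := sq_fac hsq h
  have hn : ∀ p : ℕ, p.Prime → p ∣ r → ¬ p ∣ s := fun p hp h h' =>
    hp.one_lt.ne' (Nat.eq_one_of_dvd_coprimes hcop h h')
  have hm0 := hsq.ne_zero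
  have htp : ∀ p : ℕ, p.Prime → p ≠ 2 → ¬ p ∣ t := by
    intro p hp hp2 hpt
    rcases ht with rfl | rfl
    · exact hp.one_lt.ne' (Nat.dvd_one.1 hpt)
    · exact hp2 ((Nat.prime_dvd_prime_iff_eq hp Nat.prime_two).1 hpt)
  have hZ : ∀ (p u : ℕ), p.Prime → p ≠ 2 → ¬ p ∣ u → ¬ (p : ℤ) ∣ (t : ℤ) * u := by
    intro p u hp hp2 hpu h'
    rcases (Nat.prime_iff_prime_int.1 hp).dvd_or_dvd h' with h'' | h''
    · exact htp p hp hp2 (by exact_mod_cast h'')
    · exact hpu (by exact_mod_cast h'')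
  -- the symbol for the two kinds of primes
  have k1 : ∀ p : ℕ, p.Prime → p ≠ 2 → p ∣ r →
      ((if p ∣ t * r then jacobiSym ((t * r / p * (m / p) : ℕ) : ℤ) p
        else jacobiSym ((t * r : ℕ) : ℤ) p) = jacobiSym (-5) p ↔
        jacobiSym (-(5 * ((t : ℤ) * s))) p = 1) := by
    intro p hp hp2 hpr
    have hp5 : p ≠ 5 := by
      rintro rfl
      exact h5 (by rw [← h]; exact Dvd.dvd.mul_right hpr _)
    rw [if_pos (Dvd.dvd.mul_left hpr _), five_iff hp hp5 (hZ p s hp hp2 (hn p hp hpr))]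
    obtain ⟨r', hr'⟩ := hpr
    have e1 : t * r / p * (m / p) = t * s * (r' * r') := by
      have a1 : t * r / p = t * r' := by
        rw [hr', show t * (p * r') = p * (t * r') by ring, Nat.mul_div_cancel_left _ hp.pos]
      have a2 : m / p = r' * s := by
        rw [← h, hr', mul_assoc, Nat.mul_div_cancel_left _ hp.pos]
      rw [a1, a2]; ring
    have hpr' : ¬ p ∣ r' := by
      rintro ⟨k, hk⟩
      have : p * p ∣ m := ⟨k * s, by rw [← h, hr', hk]; ring⟩
      exact hp.one_lt.ne' (Nat.isUnit_iff.1 (hsq p this))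
    have e2 : jacobiSym (((r' : ℤ)) ^ 2) p = 1 := by
      apply jacobiSym.sq_one'
      have := Nat.isCoprime_iff_coprime.2 ((Nat.Prime.coprime_iff_not_dvd hp).2 hpr').symm
      exact Int.isCoprime_iff_gcd_eq_one.1 this
    rw [e1]
    push_cast
    rw [← sq, jacobiSym.mul_left, e2, mul_one]
  have k2 : ∀ p : ℕ, p.Prime → p ≠ 2 → p ∣ s →
      ((if p ∣ t * r then jacobiSym ((t * r / p * (m / p) : ℕ) : ℤ) p
        else jacobiSym ((t * r : ℕ) : ℤ) p) = jacobiSym (-5) p ↔
        jacobiSym (-(5 * ((t : ℤ) * r))) p = 1) := by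
    intro p hp hp2 hps
    have hpr : ¬ p ∣ r := fun h' => hn p hp h' hps
    have hp5 : p ≠ 5 := by
      rintro rfl
      exact h5 (by rw [← h]; exact Dvd.dvd.mul_left hps _)
    have hptr : ¬ p ∣ t * r := by
      rw [Nat.Prime.dvd_mul hp]
      exact fun h' => h'.elim (htp p hp hp2) hpr
    rw [if_neg hptr, five_iff hp hp5 (hZ p r hp hp2 hpr)]
    push_cast
    exact Iff.rfl
  constructor
  · intro H
    constructor
    · intro p hp hp2
      have hpp := Nat.prime_of_mem_primeFactors hp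
      have hps := Nat.dvd_of_mem_primeFactors hp
      exact (k2 p hpp hp2 hps).1 (H p (Nat.mem_primeFactors.2 ⟨hpp, by
        rw [← h]; exact Dvd.dvd.mul_left hps _, hm0⟩) hp2)
    · intro p hp hp2
      have hpp := Nat.prime_of_mem_primeFactors hp
      have hps := Nat.dvd_of_mem_primeFactors hp
      exact (k1 p hpp hp2 hps).1 (H p (Nat.mem_primeFactors.2 ⟨hpp, by
        rw [← h]; exact Dvd.dvd.mul_right hps _, hm0⟩) hp2)
  · rintro ⟨H1, H2⟩ p hp hp2
    have hpp := Nat.prime_of_mem_primeFactors hp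
    have hpm := Nat.dvd_of_mem_primeFactors hp
    rw [← h, Nat.Prime.dvd_mul hpp] at hpm
    rcases hpm with h3 | h3
    · exact (k1 p hpp hp2 h3).2 (H2 p (Nat.mem_primeFactors.2 ⟨hpp, h3, hr0.ne'⟩) hp2)
    · exact (k2 p hpp hp2 h3).2 (H1 p (Nat.mem_primeFactors.2 ⟨hpp, h3, hs0.ne'⟩) hp2)

/-- all factorizations -/
def DE (m : ℕ) : Finset (ℕ × ℕ) := (({1, 2} : Finset ℕ) ×ˢ m.divisors).filter fun q =>
  (q.1 = 2 → m % 2 = 1) ∧ Cc q.1 q.2 (m / q.2)

theorem mem_DE {m : ℕ} (hm0 : m ≠ 0) {t r : ℕ} : (t, r) ∈ DE m ↔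
    (t = 1 ∨ t = 2) ∧ r ∣ m ∧ (t = 2 → m % 2 = 1) ∧ Cc t r (m / r) := by
  simp only [DE, mem_filter, mem_product, mem_insert, mem_singleton, Nat.mem_divisors]
  tauto

theorem card_DE {m : ℕ} (hsq : Squarefree m) (hm1 : m ≠ 1) : (DE m).card = 2 * (AE m).card := by
  have hm0 := hsq.ne_zero
  have h1 : (DE m).card = ((DE m).filter fun q => q.2 * q.2 < m).card +
      ((DE m).filter fun q => ¬ q.2 * q.2 < m).card :=
    (Finset.card_filter_add_card_filter_not _).symm
  have h2 : (DE m).filter (fun q => q.2 * q.2 < m) = AE m := by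
    unfold DE AE
    rw [Finset.filter_filter]
    apply Finset.filter_congr
    intro q _
    tauto
  have hfac : ∀ r, r ∣ m → r * (m / r) = m ∧ m / (m / r) = r ∧ 0 < r ∧ r * r ≠ m := by
    intro r hr
    have hrs : r * (m / r) = m := Nat.mul_div_cancel' hr
    refine ⟨hrs, Nat.div_div_self hr hm0, (sq_fac hsq hrs).2.2.2.1, ?_⟩
    intro h
    have := Nat.isUnit_iff.1 (hsq r ⟨1, by rw [mul_one]; exact h.symm⟩)
    rw [this] at h
    exact hm1 h.symm
  have h3 : ((DE m).filter fun q => ¬ q.2 * q.2 < m).card =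
      ((DE m).filter fun q => q.2 * q.2 < m).card := by
    refine Finset.card_bij' (fun q _ => (q.1, m / q.2)) (fun q _ => (q.1, m / q.2)) ?_ ?_ ?_ ?_
    · rintro ⟨t, r⟩ hq
      obtain ⟨hq, hlt⟩ := mem_filter.1 hq
      rw [mem_DE hm0] at hq
      obtain ⟨q1, q2, q3, q4⟩ := hq
      obtain ⟨f1, f2, f3, f4⟩ := hfac r q2
      simp only at hlt ⊢
      rw [mem_filter, mem_DE hm0]
      refine ⟨⟨q1, Nat.div_dvd_of_dvd q2, q3, ?_⟩, ?_⟩
      · rw [f2]; exact Cc_symm.1 q4
      · simp only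
        have h5 : m < r * r := lt_of_le_of_ne (not_lt.1 hlt) (Ne.symm f4)
        have h6 : r * (m / r) < r * r := by rw [f1]; exact h5
        have h7 : m / r < r := lt_of_mul_lt_mul_left h6 (Nat.zero_le r)
        have h8 : m / r * (m / r) ≤ m := by
          calc m / r * (m / r) ≤ r * (m / r) := Nat.mul_le_mul_right _ h7.le
            _ = m := f1
        exact lt_of_le_of_ne h8 (hfac (m / r) (Nat.div_dvd_of_dvd q2)).2.2.2
    · rintro ⟨t, r⟩ hq
      obtain ⟨hq, hlt⟩ := mem_filter.1 hq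
      rw [mem_DE hm0] at hq
      obtain ⟨q1, q2, q3, q4⟩ := hq
      obtain ⟨f1, f2, f3, f4⟩ := hfac r q2
      simp only at hlt ⊢
      rw [mem_filter, mem_DE hm0]
      refine ⟨⟨q1, Nat.div_dvd_of_dvd q2, q3, ?_⟩, ?_⟩
      · rw [f2]; exact Cc_symm.1 q4
      · simp only
        rw [not_lt]
        have h6 : r * r < r * (m / r) := by rw [f1]; exact hlt
        have h7 : r < m / r := lt_of_mul_lt_mul_left h6 (Nat.zero_le r)
        calc m = r * (m / r) := f1.symm
          _ ≤ m / r * (m / r) := Nat.mul_le_mul_right _ h7.le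
    · rintro ⟨t, r⟩ hq
      obtain ⟨hq, hlt⟩ := mem_filter.1 hq
      rw [mem_DE hm0] at hq
      simp only
      rw [(hfac r hq.2.1).2.1]
    · rintro ⟨t, r⟩ hq
      obtain ⟨hq, hlt⟩ := mem_filter.1 hq
      rw [mem_DE hm0] at hq
      simp only
      rw [(hfac r hq.2.1).2.1]
  rw [h1, h3, h2]
  ring

theorem card_sol {m : ℕ} (hsq : Squarefree m) (h5 : ¬ 5 ∣ m) (κ : WW m → ZMod 2)
    (hκ : ∀ p : WW m, jacobiSym (-5) (p : ℕ) = sg (κ p)) :
    Nat.card {x // Lm m x = κ} = (DE m).card := by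
  have hm0 := hsq.ne_zero
  have hsqt : ∀ t r : ℕ, (t, r) ∈ DE m → Squarefree (t * r) ∧
      ∀ p ∈ (t * r).primeFactors, p ∣ 4 * m := by
    intro t r hq
    rw [mem_DE hm0] at hq
    obtain ⟨q1, q2, q3, q4⟩ := hq
    have hrs : Squarefree r := hsq.squarefree_of_dvd q2
    rcases q1 with rfl | rfl
    · rw [one_mul]
      exact ⟨hrs, fun p hp => ((Nat.dvd_of_mem_primeFactors hp).trans q2).trans
        (Dvd.intro_left _ rfl)⟩
    · have hmo := q3 rfl
      have hro : Odd r := by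
        rw [← Nat.not_even_iff_odd, even_iff_two_dvd]
        intro h
        have := h.trans q2
        omega
      constructor
      · rw [Nat.squarefree_mul (Nat.coprime_two_left.2 hro)]
        exact ⟨Nat.prime_two.squarefree, hrs⟩
      · intro p hp
        have hpp := Nat.prime_of_mem_primeFactors hp
        have := Nat.dvd_of_mem_primeFactors hp
        rcases (Nat.Prime.dvd_mul hpp).1 this with h | h
        · exact Dvd.dvd.mul_right (h.trans (by norm_num)) _
        · exact Dvd.dvd.mul_left (h.trans q2) _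
  have hcc : ∀ t r : ℕ, (t = 1 ∨ t = 2) → r ∣ m →
      (Cn m (fun p => jacobiSym (-5) p) (t * r) ↔ Cc t r (m / r)) := fun t r ht hr =>
    Cn_Cc hsq h5 (Nat.mul_div_cancel' hr) ht
  have key : Nat.card {q // q ∈ DE m} = Nat.card {x // Lm m x = κ} := by
    refine Nat.card_eq_of_bijective (fun q => (⟨fun p => if (p : ℕ) ∣ q.1.1 * q.1.2 then 1 else 0,
      ?_⟩ : {x // Lm m x = κ})) ⟨?_, ?_⟩
    · obtain ⟨⟨t, r⟩, hq⟩ := q
      obtain ⟨s1, s2⟩ := hsqt t r hq
      rw [← Cn_iff hsq κ (fun p => jacobiSym (-5) p) hκ, dv_of s1 s2 hm0]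
      rw [mem_DE hm0] at hq
      exact (hcc t r hq.1 hq.2.1).2 hq.2.2.2
    · rintro ⟨⟨t, r⟩, hq⟩ ⟨⟨t', r'⟩, hq'⟩ heq
      have h1 := congrArg Subtype.val heq
      simp only at h1
      obtain ⟨s1, s2⟩ := hsqt t r hq
      obtain ⟨s1', s2'⟩ := hsqt t' r' hq'
      have h2 : t * r = t' * r' := by
        rw [← dv_of s1 s2 hm0, ← dv_of s1' s2' hm0, h1]
      rw [mem_DE hm0] at hq hq'
      obtain ⟨a1, a2, a3, -⟩ := hq
      obtain ⟨b1, b2, b3, -⟩ := hq'
      apply Subtype.ext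
      simp only [Prod.mk.injEq]
      rcases a1 with rfl | rfl <;> rcases b1 with rfl | rfl
      · exact ⟨rfl, by omega⟩
      · exfalso
        have h3 : 2 ∣ r := ⟨r', by omega⟩
        have := h3.trans a2
        have := b3 rfl
        omega
      · exfalso
        have h3 : 2 ∣ r' := ⟨r, by omega⟩
        have := h3.trans b2
        have := a3 rfl
        omega
      · exact ⟨rfl, by omega⟩
    · rintro ⟨x, hx⟩
      rw [← Cn_iff hsq κ (fun p => jacobiSym (-5) p) hκ] at hx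
      have d1 := dv_sq x
      have d2 := dv_supp x
      obtain ⟨t, r, ht, hr, hm, htr⟩ : ∃ t r : ℕ, (t = 1 ∨ t = 2) ∧ r ∣ m ∧ (t = 2 → m % 2 = 1) ∧
          t * r = dv (4 * m) x := by
        by_cases hc : m % 2 = 1 ∧ 2 ∣ dv (4 * m) x
        · obtain ⟨hc1, k, hk⟩ := hc
          refine ⟨2, k, Or.inr rfl, ?_, fun _ => hc1, hk.symm⟩
          rw [hk] at d1 d2
          have d3 : Squarefree k := d1.squarefree_of_dvd (Dvd.intro_left _ rfl)
          apply sqdvd d3
          intro p hp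
          have hpp := Nat.prime_of_mem_primeFactors hp
          have hpk := Nat.dvd_of_mem_primeFactors hp
          have h6 : p ∣ 4 * m := d2 p (Nat.mem_primeFactors.2 ⟨hpp, Dvd.dvd.mul_left hpk _,
            d1.ne_zero⟩)
          have h7 : p ≠ 2 := by
            rintro rfl
            obtain ⟨j, hj⟩ := hpk
            have : 2 * 2 ∣ 2 * k := ⟨j, by rw [hj]; ring⟩
            exact absurd (Nat.isUnit_iff.1 (d1 2 this)) (by norm_num)
          have h8 : Nat.Coprime p 4 := by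
            have : (4 : ℕ) = 2 * 2 := rfl
            rw [this]
            have := (Nat.coprime_primes hpp Nat.prime_two).2 h7
            exact Nat.Coprime.mul_right this this
          exact h8.dvd_of_dvd_mul_left h6
        · refine ⟨1, dv (4 * m) x, Or.inl rfl, ?_, fun h => by omega, one_mul _⟩
          apply sqdvd d1
          intro p hp
          have hpp := Nat.prime_of_mem_primeFactors hp
          have hpk := Nat.dvd_of_mem_primeFactors hp
          have h6 := d2 p hp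
          by_cases h7 : p = 2
          · subst h7
            by_contra h8
            exact hc ⟨by omega, hpk⟩
          · have h8 : Nat.Coprime p 4 := by
              have : (4 : ℕ) = 2 * 2 := rfl
              rw [this]
              have := (Nat.coprime_primes hpp Nat.prime_two).2 h7
              exact Nat.Coprime.mul_right this this
            exact h8.dvd_of_dvd_mul_left h6
      have hmem : (t, r) ∈ DE m := by
        rw [mem_DE hm0]
        refine ⟨ht, hr, hm, ?_⟩
        rw [← hcc t r ht hr, htr]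
        exact hx
      refine ⟨⟨(t, r), hmem⟩, ?_⟩
      apply Subtype.ext
      simp only
      apply dv_inj
      obtain ⟨s1, s2⟩ := hsqt t r hmem
      rw [dv_of s1 s2 hm0, htr]
  rw [← key, Nat.card_eq_fintype_card, Fintype.card_coe]

/-- **the parity of the number of the ambiguous forms** -/
theorem par_AE {m : ℕ} (hsq : Squarefree m) (hm1 : m ≠ 1) (h5 : ¬ 5 ∣ m) :
    Odd (AE m).card ↔ Pool.Agent.N969.P15.Qe (4 * m) := by
  have hm0 := hsq.ne_zero
  have hκ : ∀ p : WW m, jacobiSym (-5) (p : ℕ) = sg (sy (-5) p) := by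
    intro p
    have hpp := Nat.prime_of_mem_primeFactors (Finset.mem_of_mem_erase p.2)
    refine (sg_sy ?_).symm
    change Nat.gcd 5 (p : ℕ) = 1
    refine (Nat.coprime_primes Nat.prime_five hpp).2 ?_
    intro h
    exact h5 (h ▸ Nat.dvd_of_mem_primeFactors (Finset.mem_of_mem_erase p.2))
  have hcard : Fintype.card (PP (4 * m)) = Fintype.card (WW m) + 1 := by
    rw [Fintype.card_coe, Fintype.card_coe]
    exact card_pf4 hm0
  rw [Qe_iff hsq, ← lin2 hcard (Lm m) (ev_ne hsq hm1) (Lm_ev hsq) (fun p => sy (-5) p),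
    card_sol hsq h5 _ hκ, card_DE hsq hm1, Nat.odd_iff]
  omega

/-- **RE** -/
theorem t_RE : Pool.Agent.N969.P15.S_RE := by
  rintro n ⟨m, rfl, hsq, hm⟩ h5
  have h5' : m % 5 = 2 ∨ m % 5 = 3 := by omega
  have hm1 : m ≠ 1 := by omega
  refine ⟨3 * (((Rd (4 * m)).filter fun g => GcE m g).card : ℤ), ?_, ?_⟩
  · rw [card_vec hsq hm (by omega) hm1]
    ring
  · rw [← par_AE hsq hm1 (by omega), ← card_amb hsq hm h5', ← card_parity, Int.odd_mul]
    constructor
    · rintro ⟨-, h⟩
      exact_mod_cast h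
    · intro h
      exact ⟨by decide, by exact_mod_cast h⟩

end Pool.Agent.N916.RE
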