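import Pool.Agent.N916.RE.Ix

/-!
# The number of vectors and the number of reduced forms in one genus, even discriminants
-/

set_option autoImplicit false

namespace Pool.Agent.N916.RE

open Finset Pool.Agent.N877.TF Pool.Agent.N877.P15

/-- a coefficient not divisible by `p` -/
def wv (p : ℕ) (g : ℤ × ℤ × ℤ) : ℤ := if (p : ℤ) ∣ g.1 then g.2.2 else g.1

/-- the genus condition -/
def GcE (m : ℕ) (g : ℤ × ℤ × ℤ) : Prop :=
  (∀ p ∈ m.primeFactors.erase 2, jacobiSym (-(5 * wv p g)) p = 1) ∧ T2 m (wv 2 g)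

instance (m : ℕ) (g : ℤ × ℤ × ℤ) : Decidable (GcE m g) := by
  unfold GcE; infer_instance

/-- twice the odd part of `m` -/
def Nn (m : ℕ) : ℕ := if m % 2 = 1 then 2 * m else m

theorem Nn_sq {m : ℕ} (hsq : Squarefree m) : Squarefree (Nn m) := by
  unfold Nn
  split_ifs with h
  · rw [Nat.squarefree_mul (Nat.coprime_two_left.2 (Nat.odd_iff.2 h))]
    exact ⟨Nat.prime_two.squarefree, hsq⟩
  · exact hsq

theorem two_dvd_Nn (m : ℕ) : 2 ∣ Nn m := by
  unfold Nn
  split_ifs with h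
  · exact Dvd.intro _ rfl
  · omega

theorem dvd_Nn (m : ℕ) : m ∣ Nn m := by
  unfold Nn
  split_ifs with h
  · exact Dvd.intro_left _ rfl
  · exact dvd_rfl

theorem prime_dvd_Nn {m l : ℕ} (hl : l.Prime) (h : l ∣ Nn m) (h2 : l ≠ 2) : l ∣ m := by
  unfold Nn at h
  split_ifs at h with h1
  · rcases (Nat.Prime.dvd_mul hl).1 h with h3 | h3
    · exact absurd ((Nat.prime_dvd_prime_iff_eq hl Nat.prime_two).1 h3) h2
    · exact h3
  · exact h

/-- facts on the value at the point `(e, f)` -/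
theorem val_facts {m : ℕ} (hsq : Squarefree m) (hm : m % 4 = 1 ∨ m % 4 = 2) {a b c : ℤ}
    (hn : a * c - b ^ 2 = m) {e f : ℕ} (hef : e * f = Nn m) (he : e = Int.gcd a (Nn m)) :
    (∀ p ∈ m.primeFactors.erase 2, ¬ (p : ℤ) ∣ a * (e : ℤ) ^ 2 + 2 * b * ((e : ℤ) * f) +
        c * (f : ℤ) ^ 2 ∧ jacobiSym (-(5 * (a * (e : ℤ) ^ 2 + 2 * b * ((e : ℤ) * f) +
        c * (f : ℤ) ^ 2))) p = jacobiSym (-(5 * wv p (a, 2 * b, c))) p) ∧
    (Odd (a * (e : ℤ) ^ 2 + 2 * b * ((e : ℤ) * f) + c * (f : ℤ) ^ 2)) ∧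
    (T2 m (a * (e : ℤ) ^ 2 + 2 * b * ((e : ℤ) * f) + c * (f : ℤ) ^ 2) ↔
      T2 m (wv 2 (a, 2 * b, c))) := by
  have hcop : Nat.Coprime e f := Nat.coprime_of_squarefree_mul (by rw [hef]; exact Nn_sq hsq)
  have hdv : ∀ l : ℕ, l.Prime → l ∣ Nn m → ((l : ℤ) ∣ a → (l : ℤ) ∣ (e : ℤ) ∧ ¬ (l : ℤ) ∣ (f : ℤ)) ∧
      (¬ (l : ℤ) ∣ a → ¬ (l : ℤ) ∣ (e : ℤ) ∧ (l : ℤ) ∣ (f : ℤ)) := by
    intro l hl hlN
    constructor
    · intro h
      have h1 : l ∣ e := by
        rw [he]
        exact Int.dvd_gcd h (by exact_mod_cast hlN)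
      refine ⟨by exact_mod_cast h1, fun h2 => ?_⟩
      have h3 : l ∣ f := by exact_mod_cast h2
      exact hl.one_lt.ne' (Nat.eq_one_of_dvd_coprimes hcop h1 h3)
    · intro h
      have h1 : ¬ l ∣ e := by
        intro h2
        apply h
        have h5 : ((Int.gcd a (Nn m : ℤ) : ℕ) : ℤ) ∣ a := Int.gcd_dvd_left _ _
        rw [← he] at h5
        exact dvd_trans (by exact_mod_cast h2) h5
      refine ⟨fun h2 => h1 (by exact_mod_cast h2), ?_⟩
      rw [← hef, Nat.Prime.dvd_mul hl] at hlN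
      exact_mod_cast hlN.resolve_left h1
  have hac : (2 : ℤ) ∣ a → ¬ (2 : ℤ) ∣ c := by
    rintro ⟨a', rfl⟩ ⟨c', rfl⟩
    rcases Int.even_or_odd b with ⟨k, hk⟩ | ⟨k, hk⟩
    · have : (m : ℤ) = 4 * (a' * c' - k ^ 2) := by rw [← hn, hk]; ring
      omega
    · have : (m : ℤ) = 4 * (a' * c' - k ^ 2 - k) - 1 := by rw [← hn, hk]; ring
      omega
  refine ⟨?_, ?_, ?_⟩
  · intro p hp
    obtain ⟨hp2, hp⟩ := Finset.mem_erase.1 hp
    have hpp := Nat.prime_of_mem_primeFactors hp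
    have hpm := Nat.dvd_of_mem_primeFactors hp
    have hpZ : Prime (p : ℤ) := Nat.prime_iff_prime_int.1 hpp
    have hpmZ : (p : ℤ) ∣ m := by exact_mod_cast hpm
    have hsqj : ∀ x : ℤ, ¬ (p : ℤ) ∣ x → jacobiSym (x ^ 2) p = 1 := by
      intro x hx
      apply jacobiSym.sq_one'
      have : IsCoprime x (p : ℤ) := by
        rw [isCoprime_comm]
        exact (Prime.coprime_iff_not_dvd hpZ).2 hx
      exact Int.isCoprime_iff_gcd_eq_one.1 this
    obtain ⟨hd1, hd2⟩ := hdv p hpp (hpm.trans (dvd_Nn m))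
    by_cases h : (p : ℤ) ∣ a
    · obtain ⟨h1, h2⟩ := hd1 h
      have hpb : (p : ℤ) ∣ b := by
        have : (p : ℤ) ∣ b ^ 2 := by
          have e1 : b ^ 2 = a * c - m := by rw [← hn]; ring
          rw [e1]
          exact dvd_sub (Dvd.dvd.mul_right h _) hpmZ
        exact hpZ.dvd_of_dvd_pow this
      have hpc : ¬ (p : ℤ) ∣ c := by
        rintro ⟨c', hc'⟩
        obtain ⟨a', ha'⟩ := h
        obtain ⟨b', hb'⟩ := hpb
        have h3 : ((p * p : ℕ) : ℤ) ∣ (m : ℤ) := ⟨a' * c' - b' ^ 2, by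
          rw [← hn, ha', hb', hc']; push_cast; ring⟩
        have h4 : p * p ∣ m := by exact_mod_cast h3
        exact hpp.one_lt.ne' (Nat.isUnit_iff.1 (hsq p h4))
      have hmod : (p : ℤ) ∣ a * (e : ℤ) ^ 2 + 2 * b * ((e : ℤ) * f) := by
        refine dvd_add (Dvd.dvd.mul_right h _) (Dvd.dvd.mul_right (Dvd.dvd.mul_left hpb _) _)
      constructor
      · intro h3
        have h4 := (dvd_add_right hmod).1 h3
        rcases hpZ.dvd_or_dvd h4 with h5 | h5
        · exact hpc h5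
        · exact h2 (hpZ.dvd_of_dvd_pow h5)
      · have hw : wv p (a, 2 * b, c) = c := by simp [wv, h]
        rw [hw]
        have e2 : jacobiSym (-(5 * c)) p = jacobiSym (-(5 * c) * (f : ℤ) ^ 2) p := by
          rw [jacobiSym.mul_left, hsqj _ h2, mul_one]
        rw [e2]
        apply jacobiSym.mod_left'
        refine Int.ModEq.symm (Int.modEq_iff_dvd.2 ?_)
        have : -(5 * (a * (e : ℤ) ^ 2 + 2 * b * ((e : ℤ) * f) + c * (f : ℤ) ^ 2)) -
            -(5 * c) * (f : ℤ) ^ 2 = (a * (e : ℤ) ^ 2 + 2 * b * ((e : ℤ) * f)) * (-5) := by ring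
        rw [this]
        exact Dvd.dvd.mul_right hmod _
    · obtain ⟨h1, h2⟩ := hd2 h
      have hmod : (p : ℤ) ∣ 2 * b * ((e : ℤ) * f) + c * (f : ℤ) ^ 2 := by
        refine dvd_add (Dvd.dvd.mul_left (Dvd.dvd.mul_left h2 _) _)
          (Dvd.dvd.mul_left (Dvd.dvd.pow h2 two_ne_zero) _)
      constructor
      · intro h3
        rw [add_assoc] at h3
        have h4 := (dvd_add_left hmod).1 h3
        rcases hpZ.dvd_or_dvd h4 with h5 | h5
        · exact h h5
        · exact h1 (hpZ.dvd_of_dvd_pow h5)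
      · have hw : wv p (a, 2 * b, c) = a := by simp [wv, h]
        rw [hw]
        have e2 : jacobiSym (-(5 * a)) p = jacobiSym (-(5 * a) * (e : ℤ) ^ 2) p := by
          rw [jacobiSym.mul_left, hsqj _ h1, mul_one]
        rw [e2]
        apply jacobiSym.mod_left'
        refine Int.ModEq.symm (Int.modEq_iff_dvd.2 ?_)
        have : -(5 * (a * (e : ℤ) ^ 2 + 2 * b * ((e : ℤ) * f) + c * (f : ℤ) ^ 2)) -
            -(5 * a) * (e : ℤ) ^ 2 = (2 * b * ((e : ℤ) * f) + c * (f : ℤ) ^ 2) * (-5) := by ring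
        rw [this]
        exact Dvd.dvd.mul_right hmod _
  · obtain ⟨hd1, hd2⟩ := hdv 2 Nat.prime_two (two_dvd_Nn m)
    by_cases h : (2 : ℤ) ∣ a
    · obtain ⟨h1, h2⟩ := hd1 h
      have h3 : Even (a * (e : ℤ) ^ 2 + 2 * b * ((e : ℤ) * f)) := by
        rw [even_iff_two_dvd]
        exact dvd_add (Dvd.dvd.mul_right h _) (Dvd.dvd.mul_right (Dvd.intro _ rfl) _)
      refine h3.add_odd ?_
      have h4 : Odd c := by
        rw [← Int.not_even_iff_odd, even_iff_two_dvd]; exact hac h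
      have h5 : Odd (f : ℤ) := by
        rw [← Int.not_even_iff_odd, even_iff_two_dvd]; exact_mod_cast h2
      exact h4.mul h5.pow
    · obtain ⟨h1, h2⟩ := hd2 h
      rw [add_assoc]
      have h3 : Even (2 * b * ((e : ℤ) * f) + c * (f : ℤ) ^ 2) := by
        rw [even_iff_two_dvd]
        refine dvd_add (Dvd.dvd.mul_right (Dvd.intro _ rfl) _) (Dvd.dvd.mul_left
          (Dvd.dvd.pow (by exact_mod_cast h2) two_ne_zero) _)
      refine Odd.add_even ?_ h3
      have h4 : Odd a := by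
        rw [← Int.not_even_iff_odd, even_iff_two_dvd]; exact h
      have h5 : Odd (e : ℤ) := by
        rw [← Int.not_even_iff_odd, even_iff_two_dvd]; exact_mod_cast h1
      exact h4.mul h5.pow
  · obtain ⟨hd1, hd2⟩ := hdv 2 Nat.prime_two (two_dvd_Nn m)
    have hi : ∀ i : ℤ, ∃ t : ℤ, i * (i + 1) = 2 * t := by
      intro i
      obtain ⟨t, ht⟩ := Int.even_mul_succ_self i
      exact ⟨t, by rw [ht]; ring⟩
    by_cases h : (2 : ℤ) ∣ a
    · obtain ⟨h1, h2⟩ := hd1 h
      have hw : wv 2 (a, 2 * b, c) = c := by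
        unfold wv; rw [if_pos (by exact_mod_cast h)]
      rw [hw]
      obtain ⟨e', he'⟩ : (2 : ℤ) ∣ (e : ℤ) := by exact_mod_cast h1
      have h5 : Odd (f : ℤ) := by
        rw [← Int.not_even_iff_odd, even_iff_two_dvd]; exact_mod_cast h2
      obtain ⟨i, hi'⟩ := h5
      obtain ⟨t, ht⟩ := hi i
      obtain ⟨a', ha'⟩ := h
      rcases hm with hm | hm
      · have h4 : (a * (e : ℤ) ^ 2 + 2 * b * ((e : ℤ) * f) + c * (f : ℤ) ^ 2) % 4 = c % 4 := by
          have : a * (e : ℤ) ^ 2 + 2 * b * ((e : ℤ) * f) + c * (f : ℤ) ^ 2 =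
              c + 4 * (a * e' ^ 2 + b * (e' * f) + c * (i * (i + 1))) := by
            rw [he', hi']; ring
          rw [this]; omega
        unfold T2
        rw [h4]
        constructor
        · rintro ⟨k1, -⟩
          exact ⟨k1, fun h => by omega⟩
        · rintro ⟨k1, -⟩
          exact ⟨k1, fun h => by omega⟩
      · have hb2 : (2 : ℤ) ∣ b := by
          rcases Int.even_or_odd b with ⟨k, hk⟩ | ⟨k, hk⟩
          · exact ⟨k, by rw [hk]; ring⟩
          · exfalso
            have : (m : ℤ) = 2 * (a' * c) - 4 * (k ^ 2 + k) - 1 := by rw [← hn, hk, ha']; ring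
            omega
        obtain ⟨b', hb'⟩ := hb2
        have h4 : (a * (e : ℤ) ^ 2 + 2 * b * ((e : ℤ) * f) + c * (f : ℤ) ^ 2) % 8 = c % 8 := by
          have : a * (e : ℤ) ^ 2 + 2 * b * ((e : ℤ) * f) + c * (f : ℤ) ^ 2 =
              c + 8 * (a' * e' ^ 2 + b' * (e' * f) + c * t) := by
            rw [he', hi', hb', ha']
            linear_combination (4 * c) * ht
          rw [this]; omega
        unfold T2
        rw [h4]
        constructor
        · rintro ⟨-, k1⟩
          exact ⟨fun h => by omega, k1⟩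
        · rintro ⟨-, k1⟩
          exact ⟨fun h => by omega, k1⟩
    · obtain ⟨h1, h2⟩ := hd2 h
      have hw : wv 2 (a, 2 * b, c) = a := by
        unfold wv; rw [if_neg (fun h' => h (by exact_mod_cast h'))]
      rw [hw]
      obtain ⟨f', hf'⟩ : (2 : ℤ) ∣ (f : ℤ) := by exact_mod_cast h2
      have h5 : Odd (e : ℤ) := by
        rw [← Int.not_even_iff_odd, even_iff_two_dvd]; exact_mod_cast h1
      obtain ⟨i, hi'⟩ := h5
      obtain ⟨t, ht⟩ := hi i
      have h6 : Odd a := by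
        rw [← Int.not_even_iff_odd, even_iff_two_dvd]; exact h
      obtain ⟨a', ha'⟩ := h6
      rcases hm with hm | hm
      · have h4 : (a * (e : ℤ) ^ 2 + 2 * b * ((e : ℤ) * f) + c * (f : ℤ) ^ 2) % 4 = a % 4 := by
          have : a * (e : ℤ) ^ 2 + 2 * b * ((e : ℤ) * f) + c * (f : ℤ) ^ 2 =
              a + 4 * (a * (i * (i + 1)) + b * (e * f') + c * f' ^ 2) := by
            rw [hf', hi']; ring
          rw [this]; omega
        unfold T2
        rw [h4]
        constructor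
        · rintro ⟨k1, -⟩
          exact ⟨k1, fun h => by omega⟩
        · rintro ⟨k1, -⟩
          exact ⟨k1, fun h => by omega⟩
      · -- `f` is twice an odd number
        obtain ⟨j, hj⟩ : ∃ j : ℤ, f' = 2 * j + 1 := by
          rcases Int.even_or_odd f' with ⟨k, hk⟩ | h7
          · exfalso
            have h8 : ((e * f : ℕ) : ℤ) = (m : ℤ) := by
              rw [hef]; unfold Nn; rw [if_neg (by omega)]
            push_cast at h8
            rw [hf', hk] at h8
            have : (m : ℤ) = 4 * (e * k) := by rw [← h8]; ring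
            omega
          · exact h7
        obtain ⟨k, hk⟩ : ∃ k : ℤ, b + c = 2 * k := by
          rcases Int.even_or_odd b with ⟨b', hb'⟩ | ⟨b', hb'⟩ <;>
            rcases Int.even_or_odd c with ⟨c', hc'⟩ | ⟨c', hc'⟩
          · exact ⟨b' + c', by rw [hb', hc']; ring⟩
          · exfalso
            have : (m : ℤ) = 2 * (2 * a' * c' + a' + c' - 2 * b' ^ 2) + 1 := by
              rw [← hn, ha', hb', hc']; ring
            omega
          · exfalso
            have : (m : ℤ) = 2 * (2 * a' * c' + c' - 2 * b' ^ 2 - 2 * b') - 1 := by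
              rw [← hn, ha', hb', hc']; ring
            omega
          · exact ⟨b' + c' + 1, by rw [hb', hc']; ring⟩
        have h4 : (a * (e : ℤ) ^ 2 + 2 * b * ((e : ℤ) * f) + c * (f : ℤ) ^ 2) % 8 = a % 8 := by
          have : a * (e : ℤ) ^ 2 + 2 * b * ((e : ℤ) * f) + c * (f : ℤ) ^ 2 =
              a + 8 * (a * t + (2 * j + 1) * (k + b * i + c * j)) := by
            rw [hf', hi', hj]
            linear_combination (4 * a) * ht + (4 * (2 * j + 1)) * hk
          rw [this]; omega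
        unfold T2
        rw [h4]
        constructor
        · rintro ⟨-, k1⟩
          exact ⟨fun h => by omega, k1⟩
        · rintro ⟨-, k1⟩
          exact ⟨fun h => by omega, k1⟩

theorem card_PP_red {m : ℕ} (hsq : Squarefree m) (hm : m % 4 = 1 ∨ m % 4 = 2) (h5 : ¬ 5 ∣ m)
    {g : ℤ × ℤ × ℤ} (hg : g ∈ Rd (4 * m)) :
    Nat.card (S15.PP (2 * g.1) g.2.1 (2 * g.2.2)) =
      if GcE m g then 6 * 2 ^ ((m.primeFactors.erase 2).card + 1) else 0 := by
  obtain ⟨a, b0, c⟩ := g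
  have hR := mem_Rd.1 hg
  simp only at hR ⊢
  obtain ⟨hn0, ha, -⟩ := hR
  obtain ⟨b, rfl⟩ : ∃ b, b0 = 2 * b := by
    rcases Int.even_or_odd b0 with ⟨k, hk⟩ | ⟨k, hk⟩
    · exact ⟨k, by rw [hk]; ring⟩
    · exfalso
      rw [hk] at hn0
      push_cast at hn0
      have : 4 * (a * c - k ^ 2 - k - m) = 1 := by linear_combination hn0
      omega
  have hn : a * c - b ^ 2 = m := by
    push_cast at hn0
    linarith
  have hm0 : 0 < m := Nat.pos_of_ne_zero hsq.ne_zero
  have hmZ : (0 : ℤ) < m := by exact_mod_cast hm0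
  obtain ⟨h1, h2⟩ := gcd_facts (Nn_sq hsq) a
  obtain ⟨e, he⟩ : ∃ e, e = Int.gcd a (Nn m) := ⟨_, rfl⟩
  obtain ⟨f, hf⟩ : ∃ f, f = Nn m / e := ⟨_, rfl⟩
  rw [← he, ← hf] at h1 h2
  obtain ⟨v1, v2, v3⟩ := val_facts hsq hm hn h1 he
  -- the base change
  obtain ⟨s, q', hsq'⟩ : IsCoprime (e : ℤ) (f : ℤ) := Nat.isCoprime_iff_coprime.2 h2
  have hdet : (e : ℤ) * s - (-q') * f = 1 := by linear_combination hsq'
  rw [card_PP_change S15 hdet]
  obtain ⟨A, hA⟩ : ∃ A, A = a * (e : ℤ) ^ 2 + 2 * b * ((e : ℤ) * f) + c * (f : ℤ) ^ 2 := ⟨_, rfl⟩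
  obtain ⟨C, hC⟩ : ∃ C, C = a * (-q') ^ 2 + 2 * b * ((-q') * s) + c * s ^ 2 := ⟨_, rfl⟩
  obtain ⟨B, hB⟩ : ∃ B, B = a * ((e : ℤ) * (-q')) + b * ((e : ℤ) * s + (-q') * f) +
    c * ((f : ℤ) * s) := ⟨_, rfl⟩
  have hB2 : 2 * a * ((e : ℤ) * (-q')) + 2 * b * ((e : ℤ) * s + (-q') * f) +
      2 * c * ((f : ℤ) * s) = 2 * B := by rw [hB]; ring
  rw [hB2, ← hA, ← hC]
  rw [← hA] at v1 v2 v3
  have hnew : A * C - B ^ 2 = m := by
    have : A * C - B ^ 2 = (a * c - b ^ 2) * ((e : ℤ) * s - (-q') * f) ^ 2 := by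
      rw [hA, hB, hC]; ring
    rw [this, hdet, hn]; ring
  have hpos : 0 < A := by
    rw [hA]
    apply pos_val ha (by
      have : 4 * a * c - (2 * b) ^ 2 = 4 * m := by rw [← hn]; ring
      rw [this]; positivity)
    left
    intro h0
    rw [show e = 0 by exact_mod_cast h0, zero_mul] at h1
    have := (Nn_sq hsq).ne_zero
    omega
  have hcopA : IsCoprime A (m : ℤ) := by
    rw [Int.isCoprime_iff_gcd_eq_one]
    by_contra hne
    obtain ⟨l, hl, hld⟩ := Nat.exists_prime_and_dvd hne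
    have hldZ : (l : ℤ) ∣ ((Int.gcd A m : ℕ) : ℤ) := by exact_mod_cast hld
    have h3 : (l : ℤ) ∣ A := hldZ.trans (Int.gcd_dvd_left _ _)
    have h4 : (l : ℤ) ∣ (m : ℤ) := hldZ.trans (Int.gcd_dvd_right _ _)
    have h4' : l ∣ m := by exact_mod_cast h4
    by_cases hl2 : l = 2
    · subst hl2
      rw [← Int.not_even_iff_odd, even_iff_two_dvd] at v2
      exact v2 (by exact_mod_cast h3)
    · exact (v1 l (Finset.mem_erase.2 ⟨hl2, Nat.mem_primeFactors.2 ⟨hl, h4', hm0.ne'⟩⟩)).1 h3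
  rw [card_PP hnew hpos hm0 v2 hcopA (fun v hv => prim hsq hm hv)]
  have hI := card_Ie hsq hm hpos v2
  rw [if_congr v3 rfl rfl] at hI
  have hprod : ∏ p ∈ m.primeFactors.erase 2, (1 + jacobiSym (-(5 * A)) p) =
      ∏ p ∈ m.primeFactors.erase 2, (1 + jacobiSym (-(5 * wv p (a, 2 * b, c))) p) :=
    Finset.prod_congr rfl fun p hp => by rw [(v1 p hp).2]
  rw [hprod] at hI
  by_cases hG : GcE m (a, 2 * b, c)
  · rw [if_pos hG]
    rw [if_pos hG.2, Finset.prod_congr rfl (fun p hp => by rw [hG.1 p hp]), Finset.prod_const] at hI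
    have : (Ie m (5 * A)).card = 2 ^ ((m.primeFactors.erase 2).card + 1) := by
      have : ((Ie m (5 * A)).card : ℤ) = ((2 ^ ((m.primeFactors.erase 2).card + 1) : ℕ) : ℤ) := by
        rw [hI]; push_cast; ring
      exact_mod_cast this
    rw [this]
  · rw [if_neg hG]
    have : ((Ie m (5 * A)).card : ℤ) = 0 := by
      rw [hI]
      split_ifs with hT
      · have hG' : ¬ ∀ p ∈ m.primeFactors.erase 2, jacobiSym (-(5 * wv p (a, 2 * b, c))) p = 1 :=
          fun h => hG ⟨h, hT⟩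
        push Not at hG'
        obtain ⟨p, hp, hne⟩ := hG'
        rw [Finset.prod_eq_zero hp, mul_zero]
        obtain ⟨w1, w2⟩ := v1 p hp
        rw [← w2] at hne ⊢
        have hpp := Nat.prime_of_mem_primeFactors (Finset.mem_of_mem_erase hp)
        have hpm := Nat.dvd_of_mem_primeFactors (Finset.mem_of_mem_erase hp)
        haveI : NeZero p := ⟨hpp.ne_zero⟩
        have hpZ : Prime (p : ℤ) := Nat.prime_iff_prime_int.1 hpp
        have h7 : jacobiSym (-(5 * A)) p ≠ 0 := by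
          rw [Ne, jacobiSym.eq_zero_iff_not_coprime]
          intro h
          apply h
          rw [← Int.isCoprime_iff_gcd_eq_one]
          rw [isCoprime_comm]
          refine (Prime.coprime_iff_not_dvd hpZ).2 ?_
          rw [dvd_neg]
          intro h8
          rcases hpZ.dvd_or_dvd h8 with h9 | h9
          · have h10 : p ∣ 5 := by exact_mod_cast h9
            have h11 := (Nat.prime_dvd_prime_iff_eq hpp Nat.prime_five).1 h10
            exact h5 (h11 ▸ hpm)
          · exact w1 h9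
        rcases jacobiSym.trichotomy (-(5 * A)) p with h | h | h
        · exact absurd h h7
        · exact absurd h hne
        · rw [h]; norm_num
      · rfl
    have h8 : (Ie m (5 * A)).card = 0 := by exact_mod_cast this
    rw [h8, mul_zero]

theorem pf4 {m : ℕ} (hm0 : m ≠ 0) : (4 * m).primeFactors = insert 2 (m.primeFactors.erase 2) := by
  have : (4 : ℕ) = 2 ^ 2 := rfl
  rw [Nat.primeFactors_mul (by norm_num) hm0, this, Nat.primeFactors_prime_pow two_ne_zero
    Nat.prime_two]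
  ext p
  simp only [mem_union, mem_singleton, mem_insert, mem_erase]
  tauto

theorem card_pf4 {m : ℕ} (hm0 : m ≠ 0) :
    (4 * m).primeFactors.card = (m.primeFactors.erase 2).card + 1 := by
  rw [pf4 hm0, Finset.card_insert_of_notMem (by simp)]

/-- the number of vectors -/
theorem card_vec {m : ℕ} (hsq : Squarefree m) (hm : m % 4 = 1 ∨ m % 4 = 2) (h5 : ¬ 5 ∣ m)
    (hm1 : m ≠ 1) : Pool.Agent.N969.P15.rr (4 * m : ℕ) = 3 * 2 ^ (4 * m).primeFactors.card *
      ((Rd (4 * m)).filter fun g => GcE m g).card := by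
  have hm0 : m ≠ 0 := hsq.ne_zero
  have h := sum_PP S15 pos15 (n := 4 * m) (by omega) (fun a ha => by
      have h1 : (m : ℤ) = a ^ 2 := by push_cast at ha; linarith
      have h2 : m = a.natAbs * a.natAbs := by
        have : (m : ℤ) = ((a.natAbs * a.natAbs : ℕ) : ℤ) := by
          rw [h1, Int.natAbs_mul_self]; ring
        exact_mod_cast this
      have h3 := Nat.isUnit_iff.1 (hsq a.natAbs (Dvd.intro_left 1 (by rw [one_mul]; exact h2.symm)))
      rw [h3] at h2
      exact hm1 h2) (fun a ha => by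
      have h1 : (4 : ℤ) * m = 3 * a ^ 2 := by push_cast at ha; linarith
      obtain ⟨k, hk⟩ : (2 : ℤ) ∣ a := by
        rcases Int.even_or_odd a with ⟨k, hk⟩ | ⟨k, hk⟩
        · exact ⟨k, by rw [hk]; ring⟩
        · exfalso
          rw [hk] at h1
          have : (3 : ℤ) * (2 * k + 1) ^ 2 = 4 * (3 * (k ^ 2 + k)) + 3 := by ring
          omega
      have h2 : (m : ℤ) = 3 * k ^ 2 := by rw [hk] at h1; linarith
      rcases Int.even_or_odd k with ⟨j, hj⟩ | ⟨j, hj⟩
      · have : (m : ℤ) = 4 * (3 * j ^ 2) := by rw [h2, hj]; ring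
        omega
      · have : (m : ℤ) = 4 * (3 * (j ^ 2 + j)) + 3 := by rw [h2, hj]; ring
        omega) (VV := Pool.Agent.N969.P15.vec ((4 * m : ℕ) : ℤ)) (mem_vec' (4 * m))
      (fun v hv => prim hsq hm hv) (fun _ _ u _ => even15 u)
  rw [Finset.sum_congr rfl (fun g hg => card_PP_red hsq hm h5 hg), ← Finset.sum_filter,
    Finset.sum_const, smul_eq_mul, ← card_pf4 hm0] at h
  have h' : (2 : ℤ) * Pool.Agent.N969.P15.rr (4 * m : ℕ) = 2 * (3 * 2 ^ (4 * m).primeFactors.card *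
      ((Rd (4 * m)).filter fun g => GcE m g).card) := by
    unfold Pool.Agent.N969.P15.rr
    have h2 : ((2 * (Pool.Agent.N969.P15.vec ((4 * m : ℕ) : ℤ)).card : ℕ) : ℤ) =
      ((((Rd (4 * m)).filter fun g => GcE m g).card * (6 * 2 ^ (4 * m).primeFactors.card) : ℕ) : ℤ) := by
      rw [h]
    push_cast at h2 ⊢
    rw [h2]; ring
  exact mul_left_cancel₀ two_ne_zero h'

end Pool.Agent.N916.RE
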