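import Pool.Agent.N877.TF.Fin

/-!
# Reduced bases of the orthogonal complements, general discriminants (after helper877)
-/

set_option autoImplicit false

namespace Pool.Agent.N916.RE

open Finset Pool.Agent.N877.TF

theorem red_unique {n a b c a' b' c' p q r s : ℤ} (hn4 : n ≠ 4 * a ^ 2) (hn3 : n ≠ 3 * a ^ 2)
    (hR : Red n a b c) (hR' : Red n a' b' c') (hdet : p * s - q * r = 1)
    (ha : a' = a * p ^ 2 + b * (p * r) + c * r ^ 2)
    (hb : b' = 2 * a * (p * q) + b * (p * s + q * r) + 2 * c * (r * s))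
    (hc : c' = a * q ^ 2 + b * (q * s) + c * s ^ 2) (hle : a' ≤ a) :
    (p = 1 ∧ q = 0 ∧ r = 0 ∧ s = 1) ∨ (p = -1 ∧ q = 0 ∧ r = 0 ∧ s = -1) := by
  obtain ⟨h1, h2, h3, h4, h5, h6⟩ := hR
  obtain ⟨g1, g2, g3, g4, g5, g6⟩ := hR'
  have hpr : |p| ≤ 1 ∧ |r| ≤ 1 := by
    apply small_pr h2
    refine le_trans ?_ hle
    rw [ha]
    have e1 : -(a * |p * r|) ≤ b * (p * r) := by
      have e2 : |b * (p * r)| ≤ a * |p * r| := by
        rw [abs_mul]
        refine mul_le_mul_of_nonneg_right ?_ (abs_nonneg _)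
        rw [abs_le]
        exact ⟨by linarith, h4⟩
      have e3 := neg_abs_le (b * (p * r))
      linarith
    have e4 : a * r ^ 2 ≤ c * r ^ 2 := mul_le_mul_of_nonneg_right h5 (sq_nonneg r)
    nlinarith
  obtain ⟨hp, hr⟩ := hpr
  rw [abs_le] at hp hr
  obtain ⟨p1, p2⟩ := hp
  obtain ⟨r1, r2⟩ := hr
  have hbo : a = c → b ≠ 0 := by
    rintro hac rfl
    apply hn4
    rw [← h1, ← hac]; ring
  have key : ∀ t : ℤ, -a < b + 2 * a * t → b + 2 * a * t ≤ a → t = 0 := by
    intro t t1 t2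
    by_contra hne
    rcases lt_or_gt_of_ne hne with h | h
    · have : t ≤ -1 := by omega
      nlinarith
    · have : 1 ≤ t := by omega
      nlinarith
  have key2 : a = c → ∀ t : ℤ, a' = a → c' = a - b * t + a * t ^ 2 → b' = -b + 2 * a * t →
      False := by
    intro hac t ha' hc' hb'
    have hb0 : 0 < b := lt_of_le_of_ne (h6 hac) (Ne.symm (hbo hac))
    have ht1 : t < 2 := by
      by_contra hcon
      push Not at hcon
      nlinarith
    have ht2 : -1 < t := by
      by_contra hcon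
      push Not at hcon
      nlinarith
    have ht : t = 0 ∨ t = 1 := by omega
    rcases ht with rfl | rfl
    · have := g6 (by rw [ha', hc']; ring)
      rw [hb'] at this
      linarith
    · have hba : b = a := by linarith
      apply hn3
      rw [← h1, ← hac, hba]; ring
  have cp : p = -1 ∨ p = 0 ∨ p = 1 := by omega
  have cr : r = -1 ∨ r = 0 ∨ r = 1 := by omega
  rcases cp with rfl | rfl | rfl <;> rcases cr with rfl | rfl | rfl
  · exfalso
    have : c ≤ -b := by nlinarith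
    linarith
  · right
    have hs : s = -1 := by linarith
    subst hs
    have := key (-q) (by nlinarith) (by nlinarith)
    refine ⟨rfl, by omega, rfl, rfl⟩
  · exfalso
    have hcb : c ≤ b := by nlinarith
    apply hn3
    have e1 : b = a := by linarith
    have e2 : c = a := by linarith
    rw [← h1, e1, e2]; ring
  · exfalso
    have hq : q = 1 := by linarith
    subst hq
    have hca : c ≤ a := by nlinarith
    have hac : a = c := by linarith
    exact key2 hac (-s) (by rw [ha, hac]; ring) (by rw [hc, hac]; ring) (by rw [hb, hac]; ring)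
  · exfalso
    simp at hdet
  · exfalso
    have hq : q = -1 := by linarith
    subst hq
    have hca : c ≤ a := by nlinarith
    have hac : a = c := by linarith
    exact key2 hac s (by rw [ha, hac]; ring) (by rw [hc, hac]; ring) (by rw [hb, hac]; ring)
  · exfalso
    have hcb : c ≤ b := by nlinarith
    apply hn3
    have e1 : b = a := by linarith
    have e2 : c = a := by linarith
    rw [← h1, e1, e2]; ring
  · left
    have hs : s = 1 := by linarith
    subst hs
    have := key q (by nlinarith) (by nlinarith)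
    exact ⟨rfl, this, rfl, rfl⟩
  · exfalso
    have : c ≤ -b := by nlinarith
    linarith

variable (S : Co)

theorem rb_unique {v x y x' y' z : V} (hn4 : ∀ a : ℤ, S.nm v ≠ 4 * a ^ 2)
    (hn3 : ∀ a : ℤ, S.nm v ≠ 3 * a ^ 2)
    (hz : dt v z = 1) (h : S.RB v x y) (h' : S.RB v x' y') :
    (x' = x ∧ y' = y) ∨ (x' = -x ∧ y' = -y) := by
  have main : ∀ x y x' y' : V, S.RB v x y → S.RB v x' y' → S.B x' x' ≤ S.B x x →
      (x' = x ∧ y' = y) ∨ (x' = -x ∧ y' = -y) := by
    rintro x y x' y' ⟨h1, a, b, c, h2, h3, h4, h5⟩ ⟨g1, a', b', c', g2, g3, g4, g5⟩ hle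
    obtain ⟨p, r, hx⟩ := span_of (x := x) (y := y) (z := z) (u := x') (by rw [h1, hz])
      (by rw [h1, ← g1]; exact dt_crs_left _ _)
    obtain ⟨q, s, hy⟩ := span_of (x := x) (y := y) (z := z) (u := y') (by rw [h1, hz])
      (by rw [h1, ← g1]; exact dt_crs_right _ _)
    have hdet : p * s - q * r = 1 := by
      have e1 : dt (crs x' y') z = 1 := by rw [g1, hz]
      rw [hx, hy, crs_comb, h1] at e1
      have e2 : dt ((p * s - r * q) • v) z = (p * s - r * q) * dt v z := by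
        simp only [dt, Pi.smul_apply, smul_eq_mul]; ring
      rw [e2, hz] at e1
      linarith
    have e1 : S.B x' x' = 2 * (a * p ^ 2 + b * (p * r) + c * r ^ 2) := by
      rw [hx, Co.B_comb, h2, h3, h4]; ring
    have e2 : S.B x' y' = 2 * a * (p * q) + b * (p * s + q * r) + 2 * c * (r * s) := by
      rw [hx, hy, Co.B_comb, h2, h3, h4]; ring
    have e3 : S.B y' y' = 2 * (a * q ^ 2 + b * (q * s) + c * s ^ 2) := by
      rw [hy, Co.B_comb, h2, h3, h4]; ring
    rcases red_unique (hn4 a) (hn3 a) h5 g5 hdet (by linarith) (by linarith) (by linarith)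
      (by linarith) with ⟨rfl, rfl, rfl, rfl⟩ | ⟨rfl, rfl, rfl, rfl⟩
    · left; constructor
      · rw [hx]; simp
      · rw [hy]; simp
    · right; constructor
      · rw [hx]; simp
      · rw [hy]; simp
  rcases le_total (S.B x' x') (S.B x x) with hle | hle
  · exact main x y x' y' h h' hle
  · rcases main x' y' x y h' h hle with ⟨h1, h2⟩ | ⟨h1, h2⟩
    · exact Or.inl ⟨h1.symm, h2.symm⟩
    · exact Or.inr ⟨by rw [h1, neg_neg], by rw [h2, neg_neg]⟩

/-- existence of reduced bases -/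
theorem rb_exists (hpos : S.Pos) {v : V} (hv : v ≠ 0)
    (hev : ∀ u : V, dt v u = 0 → Even (S.B u u)) : ∃ x y : V, S.RB v x y := by
  have key : ∀ (N : ℕ) (x y : V), crs x y = v → S.B x x ≤ N → ∃ x y : V, S.RB v x y := by
    intro N
    induction N using Nat.strong_induction_on with
    | _ N ih =>
      intro x y hxy hN
      have hx0 : x ≠ 0 := by
        rintro rfl
        apply hv
        rw [← hxy]
        apply ext3 <;> simp [crs0, crs1, crs2]
      have hy0 : ∀ y : V, crs x y = v → y ≠ 0 := by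
        rintro y hxy rfl
        apply hv
        rw [← hxy]
        apply ext3 <;> simp [crs0, crs1, crs2]
      have hBx := hpos x hx0
      obtain ⟨a, ha⟩ := hev x (by rw [← hxy]; exact dt_crs_left _ _)
      have ha0 : 0 < a := by linarith
      -- shift `y`
      obtain ⟨k, hk1, hk2⟩ : ∃ k : ℤ, -a < S.B x y + 2 * a * k ∧ S.B x y + 2 * a * k ≤ a := by
        refine ⟨-((S.B x y + a - 1) / (2 * a)), ?_⟩
        have h1 := Int.emod_add_mul_ediv (S.B x y + a - 1) (2 * a)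
        have h2 := Int.emod_nonneg (S.B x y + a - 1) (by linarith : 2 * a ≠ 0)
        have h3 := Int.emod_lt_of_pos (S.B x y + a - 1) (by linarith : 0 < 2 * a)
        constructor <;> nlinarith
      obtain ⟨y', hy'⟩ : ∃ y', y' = y + k • x := ⟨_, rfl⟩
      have hxy' : crs x y' = v := by
        rw [← hxy, hy']
        apply ext3 <;> simp only [crs0, crs1, crs2, Pi.add_apply, Pi.smul_apply, smul_eq_mul] <;>
          ring
      have hb : S.B x y' = S.B x y + 2 * a * k := by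
        have : S.B x y' = S.B x y + k * S.B x x := by
          rw [hy']; simp only [Co.B, Pi.add_apply, Pi.smul_apply, smul_eq_mul]; ring
        rw [this, ha]; ring
      rw [← hb] at hk1 hk2
      obtain ⟨c, hc⟩ := hev y' (by rw [← hxy']; exact dt_crs_right _ _)
      have hdisc : 4 * a * c - S.B x y' ^ 2 = S.nm v := by
        rw [← hxy', S.lagrange, ha, hc]; ring
      have hBy := hpos y' (hy0 y' hxy')
      by_cases hlt : c < a
      · refine ih (2 * c).toNat ?_ y' (-x) ?_ ?_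
        · have : ((2 * c).toNat : ℤ) = 2 * c := Int.toNat_of_nonneg (by linarith)
          have h2 : ((2 * c).toNat : ℤ) < N := by rw [this]; linarith
          exact_mod_cast h2
        · rw [← hxy']
          apply ext3 <;> simp only [crs0, crs1, crs2, Pi.neg_apply] <;> ring
        · rw [Int.toNat_of_nonneg (by linarith)]
          linarith
      push Not at hlt
      rcases lt_or_ge (S.B x y') 0 with hneg | hpos'
      · by_cases hac : a = c
        · -- swap
          refine ⟨y', -x, ?_, c, -S.B x y', a, by linarith, ?_, ?_, ?_⟩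
          · rw [← hxy']
            apply ext3 <;> simp only [crs0, crs1, crs2, Pi.neg_apply] <;> ring
          · simp only [Co.B, Pi.neg_apply]; ring
          · rw [B_neg_neg, ha]; ring
          · refine ⟨by rw [← hdisc]; ring, by linarith, by linarith, by linarith, by linarith,
              fun _ => by linarith⟩
        · exact ⟨x, y', hxy', a, S.B x y', c, by linarith, rfl, by linarith, hdisc, ha0, hk1, hk2,
            hlt, fun h => absurd h hac⟩
      · exact ⟨x, y', hxy', a, S.B x y', c, by linarith, rfl, by linarith, hdisc, ha0, hk1, hk2,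
          hlt, fun _ => hpos'⟩
  obtain ⟨x, y, hxy⟩ := exists_crs v
  have h0 : (0 : ℤ) ≤ S.B x x := by
    by_cases hx : x = 0
    · rw [hx]; simp [Co.B]
    · exact (hpos x hx).le
  exact key (S.B x x).toNat x y hxy (by rw [Int.toNat_of_nonneg h0])

theorem card_RB (hpos : S.Pos) {n : ℕ} (hn0 : n ≠ 0) (hn4 : ∀ a : ℤ, (n : ℤ) ≠ 4 * a ^ 2)
    (hn3 : ∀ a : ℤ, (n : ℤ) ≠ 3 * a ^ 2) {v : V}
    (hv : S.nm v = n) (hpr : ∃ z, dt v z = 1) (hev : ∀ u : V, dt v u = 0 → Even (S.B u u)) :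
    Nat.card {q : V × V // S.RB v q.1 q.2} = 2 := by
  have hv0 : v ≠ 0 := by
    rintro rfl
    have : S.nm 0 = 0 := by simp [Co.nm]
    rw [this] at hv
    exact hn0 (by exact_mod_cast hv.symm)
  obtain ⟨z, hz⟩ := hpr
  obtain ⟨x, y, hxy⟩ := rb_exists S hpos hv0 hev
  rw [Nat.card_eq_two_iff]
  refine ⟨⟨(x, y), hxy⟩, ⟨(-x, -y), rb_neg S hxy⟩, ?_, ?_⟩
  · intro h
    have h1 := congrArg (fun q => q.1.1) h
    simp only at h1
    have hx0 : x = 0 := by
      funext i
      have := congrFun h1 i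
      simp only [Pi.neg_apply] at this
      show x i = 0
      omega
    apply hv0
    rw [← hxy.1, hx0]
    apply ext3 <;> simp [crs0, crs1, crs2]
  · rw [Set.eq_univ_iff_forall]
    rintro ⟨⟨x', y'⟩, hxy'⟩
    rcases rb_unique S (fun a => by rw [hv]; exact hn4 a) (fun a => by rw [hv]; exact hn3 a) hz hxy
      hxy' with ⟨rfl, rfl⟩ | ⟨rfl, rfl⟩
    · left; rfl
    · right; rfl

theorem card_ZZ (hpos : S.Pos) {n : ℕ} (hn0 : n ≠ 0) (hn4 : ∀ a : ℤ, (n : ℤ) ≠ 4 * a ^ 2)
    (hn3 : ∀ a : ℤ, (n : ℤ) ≠ 3 * a ^ 2) {VV : Finset V} (hVV : ∀ v, v ∈ VV ↔ S.nm v = n)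
    (hpr : ∀ v, S.nm v = n → ∃ z, dt v z = 1)
    (hev : ∀ v, S.nm v = n → ∀ u : V, dt v u = 0 → Even (S.B u u)) :
    Finite (S.ZZ n) ∧ Nat.card (S.ZZ n) = 2 * VV.card := by
  have h1 : ∀ v : {v // v ∈ VV}, Nat.card {q : V × V // S.RB v.1 q.1 q.2} = 2 := fun v =>
    card_RB S hpos hn0 hn4 hn3 ((hVV _).1 v.2) (hpr _ ((hVV _).1 v.2)) (hev _ ((hVV _).1 v.2))
  haveI : ∀ v : {v // v ∈ VV}, Finite {q : V × V // S.RB v.1 q.1 q.2} := fun v =>
    Nat.finite_of_card_ne_zero (by rw [h1 v]; norm_num)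
  have h2 : Nat.card (Σ v : {v // v ∈ VV}, {q : V × V // S.RB v.1 q.1 q.2}) = 2 * VV.card := by
    rw [Nat.card_sigma, Finset.sum_congr rfl (fun x _ => h1 x), Finset.sum_const, smul_eq_mul,
      Finset.card_univ, Fintype.card_coe, mul_comm]
  have eqv : S.ZZ n ≃ (Σ v : {v // v ∈ VV}, {q : V × V // S.RB v.1 q.1 q.2}) := by
    refine ⟨fun q => ⟨⟨crs q.1.1 q.1.2, ?_⟩, ⟨q.1, rfl, ?_⟩⟩,
      fun t => ⟨t.2.1, ?_⟩, ?_, ?_⟩
    · obtain ⟨a, b, c, e1, e2, e3, e4⟩ := q.2
      rw [hVV, S.lagrange, e1, e2, e3, ← e4.1]; ring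
    · obtain ⟨a, b, c, e1, e2, e3, e4⟩ := q.2
      refine ⟨a, b, c, e1, e2, e3, ?_⟩
      have : S.nm (crs q.1.1 q.1.2) = n := by rw [S.lagrange, e1, e2, e3, ← e4.1]; ring
      rw [this]; exact e4
    · obtain ⟨-, a, b, c, e1, e2, e3, e4⟩ := t.2.2
      have : S.nm t.1.1 = n := (hVV _).1 t.1.2
      rw [this] at e4
      exact ⟨a, b, c, e1, e2, e3, e4⟩
    · intro q
      rfl
    · rintro ⟨⟨v, hv⟩, ⟨⟨x, y⟩, hxy⟩⟩
      have e := hxy.1
      simp only at e
      subst e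
      rfl
  refine ⟨Finite.of_equiv _ eqv.symm, ?_⟩
  rw [← h2]
  exact Nat.card_congr eqv

theorem sum_PP (hpos : S.Pos) {n : ℕ} (hn0 : n ≠ 0) (hn4 : ∀ a : ℤ, (n : ℤ) ≠ 4 * a ^ 2)
    (hn3 : ∀ a : ℤ, (n : ℤ) ≠ 3 * a ^ 2) {VV : Finset V} (hVV : ∀ v, v ∈ VV ↔ S.nm v = n)
    (hpr : ∀ v, S.nm v = n → ∃ z, dt v z = 1)
    (hev : ∀ v, S.nm v = n → ∀ u : V, dt v u = 0 → Even (S.B u u)) :
    2 * VV.card = ∑ g ∈ Rd n, Nat.card (S.PP (2 * g.1) g.2.1 (2 * g.2.2)) := by
  obtain ⟨hfin, h0⟩ := card_ZZ S hpos hn0 hn4 hn3 hVV hpr hev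
  haveI : ∀ g : {g // g ∈ Rd n}, Finite (S.PP (2 * g.1.1) g.1.2.1 (2 * g.1.2.2)) := by
    intro g
    refine Finite.of_injective (fun q => (⟨q.1, g.1.1, g.1.2.1, g.1.2.2, q.2.1, q.2.2.1, q.2.2.2,
      mem_Rd.1 g.2⟩ : S.ZZ n)) ?_
    intro q q' h
    have e := congrArg Subtype.val h
    exact Subtype.ext e
  have h2 : Nat.card (Σ g : {g // g ∈ Rd n}, S.PP (2 * g.1.1) g.1.2.1 (2 * g.1.2.2)) =
      ∑ g ∈ Rd n, Nat.card (S.PP (2 * g.1) g.2.1 (2 * g.2.2)) := by
    rw [Nat.card_sigma]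
    exact Finset.sum_coe_sort (Rd n) (fun g => Nat.card (S.PP (2 * g.1) g.2.1 (2 * g.2.2)))
  rw [← h0, ← h2]
  symm
  refine Nat.card_eq_of_bijective (fun t => (⟨t.2.1, t.1.1.1, t.1.1.2.1, t.1.1.2.2, t.2.2.1,
    t.2.2.2.1, t.2.2.2.2, mem_Rd.1 t.1.2⟩ : S.ZZ n)) ⟨?_, ?_⟩
  · rintro ⟨⟨⟨a, b, c⟩, hg⟩, ⟨⟨x, y⟩, h1, h2, h3⟩⟩ ⟨⟨⟨a', b', c'⟩, hg'⟩, ⟨⟨x', y'⟩, g1, g2, g3⟩⟩ h
    have e := congrArg Subtype.val h
    simp only [Prod.mk.injEq] at e
    obtain ⟨rfl, rfl⟩ := e
    simp only at h1 h2 h3 g1 g2 g3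
    have ea : a = a' := by linarith
    have eb : b = b' := by linarith
    have ec : c = c' := by linarith
    subst ea eb ec
    rfl
  · rintro ⟨q, a, b, c, h1, h2, h3, h4⟩
    exact ⟨⟨⟨(a, b, c), mem_Rd.2 h4⟩, ⟨q, h1, h2, h3⟩⟩, rfl⟩

end Pool.Agent.N916.RE
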