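import Pool.Agent.N916.RE.Bj
import Pool.Agent.N969.P15.Defs2

/-!
# The parity of the number of factorizations, even discriminants
-/

set_option autoImplicit false

namespace Pool.Agent.N916.RE

open Finset Pool.Agent.N877.TF
open Pool.Agent.N855.P15 (sg sg_add sg_inj sg_sum sy sg_sy jac_prod PP dv dvd_dv add_self2)

theorem lin2 {V W : Type} [Fintype V] [DecidableEq V] [Fintype W] [DecidableEq W]
    (hc : Fintype.card V = Fintype.card W + 1)
    (L : (V → ZMod 2) →ₗ[ZMod 2] (W → ZMod 2)) {e : V → ZMod 2} (he0 : e ≠ 0) (he : L e = 0)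
    (κ : W → ZMod 2) :
    Nat.card {x // L x = κ} % 4 = 2 ↔ ∀ x, L x = 0 → x = 0 ∨ x = e := by
  classical
  have hcK : Nat.card (LinearMap.ker L) = 2 ^ Module.finrank (ZMod 2) (LinearMap.ker L) := by
    have := Module.natCard_eq_pow_finrank (K := ZMod 2) (V := LinearMap.ker L)
    simpa using this
  -- the solutions are a torsor of the kernel
  have htor : ∀ x0, L x0 = κ → Nat.card {x // L x = κ} = Nat.card (LinearMap.ker L) := by
    intro x0 hx0
    refine Nat.card_congr ⟨fun x => ⟨x.1 - x0, ?_⟩, fun y => ⟨y.1 + x0, ?_⟩, ?_, ?_⟩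
    · rw [LinearMap.mem_ker, map_sub, x.2, hx0, sub_self]
    · rw [map_add, LinearMap.mem_ker.mp y.2, hx0, zero_add]
    · intro x; ext1; simp
    · intro y; ext1; simp
  have hK2 : (∀ x, L x = 0 → x = 0 ∨ x = e) ↔ Nat.card (LinearMap.ker L) = 2 := by
    constructor
    · intro h
      have : Nat.card (LinearMap.ker L) = Nat.card ({0, e} : Finset (V → ZMod 2)) := by
        refine Nat.card_congr (Equiv.subtypeEquivRight fun x => ?_)
        rw [LinearMap.mem_ker]
        simp only [Finset.mem_insert, Finset.mem_singleton]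
        exact ⟨h x, fun hx => by rcases hx with rfl | rfl; exacts [map_zero _, he]⟩
      rw [this, Nat.card_eq_fintype_card, Fintype.card_coe, Finset.card_pair (Ne.symm he0)]
    · intro h x hx
      by_contra hne
      push Not at hne
      have hinj : Function.Injective (fun i : Fin 3 =>
          (![⟨0, by simp⟩, ⟨e, he⟩, ⟨x, hx⟩] i : LinearMap.ker L)) := by
        intro i j hij
        fin_cases i <;> fin_cases j <;> simp [Subtype.ext_iff] at hij ⊢
        · exact he0 hij.symm
        · exact hne.1 hij.symm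
        · exact he0 hij
        · exact hne.2 hij.symm
        · exact hne.1 hij
        · exact hne.2 hij
      have := Nat.card_le_card_of_injective _ hinj
      rw [h, Nat.card_eq_fintype_card, Fintype.card_fin] at this
      omega
  rw [hK2]
  constructor
  · intro h
    have hne : Nonempty {x // L x = κ} := by
      by_contra hc
      rw [not_nonempty_iff] at hc
      rw [Nat.card_of_isEmpty] at h
      omega
    obtain ⟨x0, hx0⟩ := hne
    rw [htor x0 hx0, hcK] at h
    rw [hcK]
    rcases Nat.lt_or_ge (Module.finrank (ZMod 2) (LinearMap.ker L)) 2 with hk | hk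
    · interval_cases hf : Module.finrank (ZMod 2) (LinearMap.ker L)
      · omega
      · omega
    · obtain ⟨m, hm⟩ := Nat.exists_eq_add_of_le hk
      rw [hm, pow_add] at h
      omega
  · intro h
    have hf1 : Module.finrank (ZMod 2) (LinearMap.ker L) = 1 := by
      rw [hcK] at h
      exact Nat.pow_right_injective le_rfl (h.trans (pow_one 2).symm)
    have hr := LinearMap.finrank_range_add_finrank_ker L
    rw [hf1, Module.finrank_fintype_fun_eq_card, hc] at hr
    have heq : LinearMap.range L = ⊤ := by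
      apply Submodule.eq_top_of_finrank_eq
      rw [Module.finrank_fintype_fun_eq_card]
      omega
    have hmem : κ ∈ LinearMap.range L := by rw [heq]; trivial
    obtain ⟨x0, hx0⟩ := hmem
    rw [htor x0 hx0, h]

/-- the odd primes of `m` -/
abbrev WW (m : ℕ) : Type := {p // p ∈ m.primeFactors.erase 2}

/-- the matrix entry -/
def Me (m q p : ℕ) : ZMod 2 := if q = p then sy ((m / p : ℕ) : ℤ) p else sy (q : ℤ) p

/-- the linear map -/
def Lm (m : ℕ) : (PP (4 * m) → ZMod 2) →ₗ[ZMod 2] (WW m → ZMod 2) where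
  toFun x p := ∑ q : PP (4 * m), x q * Me m q p
  map_add' x y := by
    funext p
    simp only [Pi.add_apply]
    rw [← sum_add_distrib]
    exact sum_congr rfl fun q _ => by ring
  map_smul' a x := by
    funext p
    simp only [Pi.smul_apply, smul_eq_mul, RingHom.id_apply]
    rw [mul_sum]
    exact sum_congr rfl fun q _ => by ring

theorem Lm_apply (m : ℕ) (x : PP (4 * m) → ZMod 2) (p : WW m) :
    Lm m x p = ∑ q : PP (4 * m), x q * Me m q p := rfl

/-- the condition on the number `d` -/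
def Cn (m : ℕ) (f : ℕ → ℤ) (d : ℕ) : Prop := ∀ p ∈ m.primeFactors, p ≠ 2 →
  (if p ∣ d then jacobiSym ((d / p * (m / p) : ℕ) : ℤ) p else jacobiSym d p) = f p

theorem z2 {a : ZMod 2} (h : ¬ a = 1) : a = 0 := by revert a; decide

/-- the symbol -/
theorem key_sym {m : ℕ} (hsq : Squarefree m) (x : PP (4 * m) → ZMod 2) (p : WW m) :
    (if (p : ℕ) ∣ dv (4 * m) x then jacobiSym ((dv (4 * m) x / p * (m / p) : ℕ) : ℤ) p
      else jacobiSym (dv (4 * m) x) p) = sg (Lm m x p) := by
  have hm0 := hsq.ne_zero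
  obtain ⟨p, hp⟩ := p
  obtain ⟨hp2, hpm⟩ := Finset.mem_erase.1 hp
  have hpp := Nat.prime_of_mem_primeFactors hpm
  have hpd := Nat.dvd_of_mem_primeFactors hpm
  have hp4 : p ∈ (4 * m).primeFactors := by
    rw [pf4 hm0]; exact Finset.mem_insert_of_mem hp
  set P : PP (4 * m) := ⟨p, hp4⟩ with hP
  have hgq : ∀ q : PP (4 * m), q ≠ P → sg (sy ((q : ℕ) : ℤ) p) = jacobiSym ((q : ℕ) : ℤ) p := by
    intro q hq
    apply sg_sy
    rw [Int.gcd_natCast_natCast]
    refine (Nat.coprime_primes (Nat.prime_of_mem_primeFactors q.2) hpp).2 ?_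
    intro h1
    exact hq (Subtype.ext h1)
  have hdvp : (p ∣ dv (4 * m) x) ↔ x P = 1 := dvd_dv x P
  rw [Lm_apply]
  show (if p ∣ dv (4 * m) x then jacobiSym ((dv (4 * m) x / p * (m / p) : ℕ) : ℤ) p
      else jacobiSym (dv (4 * m) x) p) = sg (∑ q : PP (4 * m), x q * Me m q p)
  rw [sg_sum]
  have hprod : ∀ q : PP (4 * m), q ≠ P → sg (x q * Me m q p) =
      if x q = 1 then jacobiSym ((q : ℕ) : ℤ) p else 1 := by
    intro q hq
    have hne : (q : ℕ) ≠ p := fun h1 => hq (Subtype.ext h1)
    unfold Me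
    rw [if_neg hne]
    split_ifs with h
    · rw [h, one_mul, hgq q hq]
    · rw [z2 h, zero_mul]; rfl
  have hrest : ∏ q ∈ univ.erase P, sg (x q * Me m q p) =
      jacobiSym ((∏ q ∈ (univ.erase P).filter (fun q : PP (4 * m) => x q = 1), (q : ℕ) : ℕ) : ℤ) p := by
    rw [Nat.cast_prod, jac_prod, prod_filter]
    exact prod_congr rfl fun q hq => hprod q (Finset.ne_of_mem_erase hq)
  rw [← Finset.mul_prod_erase univ _ (Finset.mem_univ P), hrest]
  have hMe : Me m P p = sy ((m / p : ℕ) : ℤ) p := by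
    unfold Me; rw [if_pos rfl]
  rw [hMe]
  have hgm : Int.gcd ((m / p : ℕ) : ℤ) p = 1 := by
    rw [Int.gcd_natCast_natCast]
    apply Nat.Coprime.symm
    rw [Nat.Prime.coprime_iff_not_dvd hpp]
    rintro ⟨k, hk⟩
    have h1 : p * p ∣ m := by
      refine ⟨k, ?_⟩
      rw [mul_assoc, ← hk, Nat.mul_div_cancel' hpd]
    exact hpp.one_lt.ne' (Nat.isUnit_iff.1 (hsq p h1))
  by_cases h : x P = 1
  · rw [if_pos (hdvp.2 h), h, one_mul, sg_sy hgm]
    have hd : dv (4 * m) x = p * ∏ q ∈ (univ.erase P).filter (fun q : PP (4 * m) => x q = 1),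
        (q : ℕ) := by
      unfold dv
      have e : univ.filter (fun q : PP (4 * m) => x q = 1) =
          insert P ((univ.erase P).filter (fun q : PP (4 * m) => x q = 1)) := by
        ext q
        simp only [mem_filter, mem_univ, true_and, mem_insert, mem_erase, and_true]
        constructor
        · intro hq
          by_cases h1 : q = P
          · exact Or.inl h1
          · exact Or.inr ⟨h1, hq⟩
        · rintro (h1 | h1)
          · rw [h1]; exact h
          · exact h1.2
      rw [e, Finset.prod_insert (by simp)]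
    rw [hd, Nat.mul_div_cancel_left _ hpp.pos]
    rw [Nat.cast_mul, jacobiSym.mul_left, mul_comm]
  · rw [if_neg (fun h1 => h (hdvp.1 h1)), z2 h, zero_mul]
    have hd : dv (4 * m) x = ∏ q ∈ (univ.erase P).filter (fun q : PP (4 * m) => x q = 1),
        (q : ℕ) := by
      unfold dv
      congr 1
      ext q
      simp only [mem_filter, mem_univ, true_and, mem_erase, and_true]
      exact ⟨fun hq => ⟨fun h1 => h (h1 ▸ hq), hq⟩, fun hq => hq.2⟩
    rw [← hd]
    show _ = 1 * _
    rw [one_mul]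

theorem Cn_iff {m : ℕ} (hsq : Squarefree m) (κ : WW m → ZMod 2) (f : ℕ → ℤ)
    (hf : ∀ p : WW m, f p = sg (κ p)) (x : PP (4 * m) → ZMod 2) :
    Cn m f (dv (4 * m) x) ↔ Lm m x = κ := by
  constructor
  · intro h
    funext p
    apply sg_inj
    rw [← key_sym hsq x p, ← hf p]
    obtain ⟨hp2, hpm⟩ := Finset.mem_erase.1 p.2
    exact h p hpm hp2
  · intro h p hp hp2
    have h1 := key_sym hsq x ⟨p, Finset.mem_erase.2 ⟨hp2, hp⟩⟩
    have h2 := hf ⟨p, Finset.mem_erase.2 ⟨hp2, hp⟩⟩
    simp only at h1 h2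
    rw [h1, h2, h]

/-- the vector of a divisor -/
theorem dv_of {m d : ℕ} (hd : Squarefree d) (hdn : ∀ p ∈ d.primeFactors, p ∣ 4 * m)
    (hm0 : m ≠ 0) : dv (4 * m) (fun p => if (p : ℕ) ∣ d then 1 else 0) = d := by
  unfold dv
  have h1 : univ.filter (fun p : PP (4 * m) => (if (p : ℕ) ∣ d then (1 : ZMod 2) else 0) = 1) =
      univ.filter (fun p : PP (4 * m) => (p : ℕ) ∣ d) := by
    apply filter_congr
    intro p _
    split_ifs with h <;> simp [h]
  rw [h1]
  have h2 : ∏ p ∈ univ.filter (fun p : PP (4 * m) => (p : ℕ) ∣ d), (p : ℕ) =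
      ∏ p ∈ (4 * m).primeFactors.filter (fun p => p ∣ d), p := by
    rw [prod_filter, prod_filter]
    exact Finset.prod_coe_sort (4 * m).primeFactors (fun p => if p ∣ d then p else 1)
  rw [h2]
  have h3 : (4 * m).primeFactors.filter (fun p => p ∣ d) = d.primeFactors := by
    ext p
    simp only [mem_filter, Nat.mem_primeFactors]
    refine ⟨fun h => ⟨h.1.1, h.2, hd.ne_zero⟩, fun h => ⟨⟨h.1, ?_, by omega⟩, h.2.1⟩⟩
    exact hdn p (Nat.mem_primeFactors.2 h)
  rw [h3]
  exact Nat.prod_primeFactors_of_squarefree hd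

theorem dv_sq {m : ℕ} (x : PP (4 * m) → ZMod 2) : Squarefree (dv (4 * m) x) := by
  unfold dv
  refine Finset.squarefree_prod_of_pairwise_isCoprime ?_ ?_
  · intro p _ q _ hpq
    rw [Function.onFun, ← Nat.coprime_iff_isRelPrime]
    exact (Nat.coprime_primes (Nat.prime_of_mem_primeFactors p.2)
      (Nat.prime_of_mem_primeFactors q.2)).2 (fun h => hpq (Subtype.ext h))
  · intro p _
    exact (Nat.prime_of_mem_primeFactors p.2).squarefree

theorem dv_supp {m : ℕ} (x : PP (4 * m) → ZMod 2) : ∀ p ∈ (dv (4 * m) x).primeFactors,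
    p ∣ 4 * m := by
  intro p hp
  have hpp := Nat.prime_of_mem_primeFactors hp
  have hpd := Nat.dvd_of_mem_primeFactors hp
  unfold dv at hpd
  rw [Prime.dvd_finsetProd_iff hpp.prime] at hpd
  obtain ⟨q, hq, hpq⟩ := hpd
  have h1 := (Nat.prime_dvd_prime_iff_eq hpp (Nat.prime_of_mem_primeFactors q.2)).1 hpq
  rw [h1]
  exact Nat.dvd_of_mem_primeFactors q.2

theorem dv_inj {m : ℕ} {x y : PP (4 * m) → ZMod 2} (h : dv (4 * m) x = dv (4 * m) y) : x = y := by
  funext p
  have h1 := dvd_dv x p
  have h2 := dvd_dv y p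
  rw [h] at h1
  have h3 : x p = 1 ↔ y p = 1 := h1.symm.trans h2
  have : ∀ a b : ZMod 2, (a = 1 ↔ b = 1) → a = b := by decide
  exact this _ _ h3

end Pool.Agent.N916.RE
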